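import Pool.Agent.Lib.MP_e1f7e2_al.FA.Iface

/-! # Module SIXD (FA, MP_e1f7e2_al); helper65 -/

set_option autoImplicit false

namespace Pool.Agent.Lib.MP_e1f7e2_al.FA.H65

section

variable {K : Type*} [Field K] {w : Fin 3 → ℝ}

theorem com_symm (F : Facts K w) {f g : A K 3} (h : Com w f g) : Com w g f := by
  unfold Com at h ⊢
  rw [F.e.comm g f]
  linarith

/-- the data attached to a configuration `C6` -/
theorem c6_data (F : Facts K w) {ν : ℝ} {l m f fs : A K 3} (h : C6 w ν l m f fs) :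
    0 < dg w l ∧ 0 < dg w m ∧ 0 < dg w f ∧ l * m ≠ m * l ∧
      dg w (f - (f - fs)) < dg w f ∧ dg w ((f - fs) - f) < dg w (f - fs) ∧
      dg w (f - fs) = dg w f := by
  have h1 : 0 < dg w l := F.f.pos _ _ _ h.fr
  have h2 : 0 < dg w m := F.f.pos _ _ _ (F.f.p12 _ _ _ h.fr)
  have h3 : 0 < dg w f := F.f.pos _ _ _ (F.f.p12 _ _ _ (F.f.p23 _ _ _ h.fr))
  have h4 : dg w (f - fs) = dg w f := F.d.sub_left _ _ h.dlt
  refine ⟨h1, h2, h3, F.f.nc _ _ _ h.fr, ?_, ?_, h4⟩
  · rw [sub_sub_cancel]; exact h.dlt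
  · rw [h4, sub_sub_cancel_left, F.d.neg]; exact h.dlt

theorem sixd (K : Type*) [Field K] (w : Fin 3 → ℝ) (_hw : Gen w) (F : Facts K w) :
    SixdStatement K w := by
  constructor
  · intro ν l m f fs h6 hc hnd hdv
    obtain ⟨hl, hm, hf, hnc, ht, ht', hP⟩ := c6_data F hc
    -- `|f| < |l|`
    have hfl : dg w f < dg w l := by
      obtain ⟨_, _, c, k, hc0, hk, hdeg, hlt⟩ := F.e.dv' l f hl hdv
      rcases Nat.lt_or_ge 1 k with hk2 | hk1
      · have : (2 : ℝ) ≤ k := by exact_mod_cast hk2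
        nlinarith
      · have hk' : k = 1 := le_antisymm hk1 hk
        subst hk'
        exfalso
        have h1 := (hc.or3 1 0 (-c) 0).1 one_ne_zero
        have h2 : (1 : K) • l + (0 : K) • m + (-c) • f + (0 : K) • (1 : A K 3) = l - c • f ^ 1 := by
          rw [one_smul, zero_smul, zero_smul, add_zero, add_zero, neg_smul, pow_one, sub_eq_add_neg]
        rw [h2] at h1
        exact absurd hlt (not_lt.2 h1)
    -- `(l, m)` is good
    have hfr : Fr l m fs := (F.f.adjm l m f fs hc.fr (by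
      have h1 : fs - f = -(f - fs) := by rw [neg_sub]
      rw [h1]; exact neg_mem hc.q)).1
    have hvd : vd w (sp l m fs) < ν := by
      rw [← hc.vdf]
      exact F.v.strict l m f fs hc.fr hc.or3 (by
        have h1 : fs - f = -(f - fs) := by rw [neg_sub]
        rw [h1]; exact neg_mem hc.q) hc.dlt
    have hgd : Gd w l m := h6.hb l m fs hfr hvd hc.red hnd
    have hne := F.t.ndne l m hnd
    rcases lt_or_gt_of_ne hne with h | h
    · -- `m` is the big one
      have hgd' := F.t.gdsymm l m hgd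
      have hnd' := F.t.ndsymm l m hnd
      have hE : dg w l < E w m l := by
        have h1 := hgd'.lmax
        unfold Df at h1
        rw [max_eq_left h.le] at h1
        linarith
      obtain ⟨c, hc1⟩ := F.t.xe0 m l (f - fs) (Ne.symm hnc) h hnd'.nfg hE
        (by rw [F.s.bcomm]; exact hc.q) (by rw [hP]; exact hfl)
      have h2 := F.d.const c
      rw [← hc1, hP] at h2
      exact absurd h2 (ne_of_gt hf)
    · -- `l` is the big one
      have hcfl : Com w l f := (F.e.dv' l f hl hdv).2.1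
      have hcfm : Com w f m := F.c.trans f l m hf hl hm (com_symm F hcfl) hnd.com
      have hcPm : Com w (f - fs) m := F.t.comtop f (f - fs) m hf hm ht hcfm
      have h1 := (F.t.w2 l m (f - fs) hnc hnd hgd h hc.q (by rw [hP]; exact hfl)
        (by rw [hP]; exact hf) hcPm).1
      have h2 : Dv w f m := F.t.dvtop (f - fs) f m (by rw [hP]; exact hf) ht' h1
      exact hnd.nfg (F.t.dvtrans l f m hl hdv h2)
  · intro ν l m f fs hc hncom hcom
    obtain ⟨hl, hm, hf, hnc, ht, ht', hP⟩ := c6_data F hc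
    have h1 : Com w (f - fs) l := F.t.comtop f (f - fs) l hf hl ht (com_symm F hcom)
    have h2 := F.t.fr3 l m (f - fs) hl hm hncom hc.q (by rw [hP]; exact hf) h1
    exact F.t.dvtop (f - fs) f l (by rw [hP]; exact hf) ht' h2

end

end Pool.Agent.Lib.MP_e1f7e2_al.FA.H65
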