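import Pool.Agent.Lib.MP_e1f7e2_al.FA.H65.Redi
import Pool.Agent.Lib.MP_e1f7e2_al.FA.H74.Chain

/-! # Modules DTZ, MINI (FA, MP_e1f7e2_al); helper65 -/

set_option autoImplicit false

namespace Pool.Agent.Lib.MP_e1f7e2_al.FA.H65

/-! ## DTZ -/

section

variable {K : Type*} [Field K]

/-- substitution in an element without letter `3` -/
theorem sb_of_dt (G : A K 4) (hG : dt G = 0) (s s' : A K 3) : sb s G = sb s' G := by
  have h : ∀ u ∈ G.coeff.support, u.toList.count 3 = 0 := by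
    intro u hu
    have h1 : u.toList.count 3 ≤ dt G :=
      Finset.le_sup (f := fun u : Wd 4 => u.toList.count 3) hu
    omega
  have hw : ∀ l : List (Fin 4), l.count 3 = 0 →
      FreeMonoid.lift ![xx 0, xx 1, xx 2, s] (FreeMonoid.ofList l) =
        FreeMonoid.lift ![xx 0, xx 1, xx 2, s'] (FreeMonoid.ofList l) := by
    intro l
    induction l with
    | nil => intro _; rfl
    | cons a l ih =>
      intro hl
      have ha : a ≠ 3 := by
        rintro rfl
        simp at hl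
      have hl' : l.count 3 = 0 := by
        rw [List.count_cons_of_ne ha] at hl
        exact hl
      rw [FreeMonoid.ofList_cons, map_mul, map_mul, ih hl', FreeMonoid.lift_eval_of,
        FreeMonoid.lift_eval_of]
      congr 1
      fin_cases a
      · rfl
      · rfl
      · rfl
      · exact absurd rfl ha
  have key : ∀ t : A K 3, sb t G = G.coeff.sum fun u c => c • FreeMonoid.lift ![xx 0, xx 1, xx 2, t] u := by
    intro t
    unfold sb evl
    rw [MonoidAlgebra.lift_apply]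
  rw [key, key]
  refine Finset.sum_congr rfl fun u hu => ?_
  have := hw u.toList (h u hu)
  rw [FreeMonoid.ofList_toList] at this
  show _ • _ = _ • _
  rw [this]

theorem evl_mem_B (H : A K 3) (f g : A K 3) : evl ![0, f, g] H ∈ B f g := by
  have h : (evl ![0, f, g] : A K 3 →ₐ[K] A K 3).range ≤ B f g := by
    rintro _ ⟨p, rfl⟩
    show evl _ p ∈ _
    refine MonoidAlgebra.induction_linear p ?_ ?_ ?_
    · rw [map_zero]; exact Subalgebra.zero_mem _
    · intro P Q hP hQ
      rw [map_add]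
      exact Subalgebra.add_mem _ hP hQ
    · intro u c
      rw [H74.evl_single]
      apply Subalgebra.smul_mem
      induction u using FreeMonoid.recOn with
      | one => rw [map_one]; exact Subalgebra.one_mem _
      | of_mul j u h =>
        rw [map_mul, FreeMonoid.lift_eval_of]
        refine Subalgebra.mul_mem _ ?_ h
        fin_cases j
        · exact Subalgebra.zero_mem _
        · exact Algebra.subset_adjoin (Or.inl rfl)
        · exact Algebra.subset_adjoin (Or.inr rfl)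
  exact h ⟨H, rfl⟩

theorem dtz (K : Type*) [Field K] : DtzStatement K := by
  intro z ⟨φ, h0, h1, h2⟩ H hH
  have hz : (φ : A K 3 →ₐ[K] A K 3) = evl ![z 0, z 1, z 2] := by
    apply hom_ext'
    intro i
    rw [evl_xx]
    fin_cases i
    · exact h0
    · exact h1
    · exact h2
  have e1 : ∀ s : A K 3, sb s (Th z H) = evl ![z 0 + s, z 1, z 2] H := by
    intro s
    exact DFunLike.congr_fun (sb_Th z s) H
  have e2 : evl ![z 0, z 1, z 2] H = evl ![0, z 1, z 2] H := by
    have h := sb_of_dt (Th z H) hH 0 (-(z 0))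
    rw [e1, e1, add_zero, add_neg_cancel] at h
    exact h
  have e3 : (φ : A K 3 →ₐ[K] A K 3).comp (evl ![0, xx 1, xx 2]) = evl ![0, z 1, z 2] := by
    apply hom_ext'
    intro i
    rw [AlgHom.comp_apply, evl_xx, evl_xx]
    fin_cases i
    · exact map_zero _
    · exact h1
    · exact h2
  have e4 : φ H = φ (evl ![0, xx 1, xx 2] H) := by
    have a1 : φ H = evl ![z 0, z 1, z 2] H := DFunLike.congr_fun hz H
    have a2 : φ (evl ![0, xx 1, xx 2] H) = evl ![0, z 1, z 2] H := DFunLike.congr_fun e3 H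
    rw [a1, a2, e2]
  have e5 := φ.injective e4
  rw [e5]
  exact evl_mem_B H _ _

/-! ## MINI -/

theorem wt_mul {n : ℕ} (w : Fin n → ℝ) (u v : Wd n) : wt w (u * v) = wt w u + wt w v := by
  unfold wt
  rw [FreeMonoid.toList_mul, List.map_append, List.sum_append]

theorem wt_w4 (w : Fin 3 → ℝ) (l : List (Fin 4)) :
    ∃ u : Wd 3, (l.map (w4 w)).sum = wt w u := by
  induction l with
  | nil => exact ⟨1, rfl⟩
  | cons a l ih =>
    obtain ⟨u, hu⟩ := ih
    rw [List.map_cons, List.sum_cons, hu]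
    by_cases ha : a = 3
    · subst ha
      refine ⟨u, ?_⟩
      have : w4 w 3 = 0 := rfl
      rw [this, zero_add]
    · obtain ⟨b, hb⟩ : ∃ b : Fin 3, w4 w a = w b := by
        fin_cases a
        · exact ⟨0, rfl⟩
        · exact ⟨1, rfl⟩
        · exact ⟨2, rfl⟩
        · exact absurd rfl ha
      refine ⟨FreeMonoid.of b * u, ?_⟩
      rw [wt_mul, hb]
      congr 1
      simp [wt]

theorem et_val (w : Fin 3 → ℝ) (G : A K 4) : ∃ u : Wd 3, et w G = wt w u := by
  unfold et dg dgr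
  split_ifs with h
  · obtain ⟨W, _, hW⟩ := Finset.exists_mem_eq_sup' h (wt (w4 w))
    rw [hW]
    exact wt_w4 w W.toList
  · exact ⟨1, by simp [wt]⟩

theorem sett_val (w : Fin 3 → ℝ) (z Y : Fin 3 → A K 3) : ∃ u : Wd 3, sett w z Y = wt w u := by
  obtain ⟨u0, h0⟩ := et_val w (Th z (Y 0))
  obtain ⟨u1, h1⟩ := et_val w (Th z (Y 1))
  obtain ⟨u2, h2⟩ := et_val w (Th z (Y 2))
  refine ⟨u0 * u1 * u2, ?_⟩
  rw [sett, h0, h1, h2, wt_mul, wt_mul]

theorem mini (K : Type*) [Field K] (w : Fin 3 → ℝ) (_hw : Gen w) (hd : DegFacts K w) :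
    MiniStatement K w := by
  classical
  intro z ψ
  let Y : (A K 3 ≃ₐ[K] A K 3) → Fin 3 → A K 3 := fun τ i => ψ (τ (xx i))
  have hex : ∃ n : ℕ, ∃ τ ∈ TG K, sdt z (Y τ) = n := ⟨_, 1, one_mem _, rfl⟩
  obtain ⟨τ0, hτ0, hs0⟩ := Nat.find_spec hex
  have hmin : ∀ τ ∈ TG K, Nat.find hex ≤ sdt z (Y τ) := fun τ hτ => Nat.find_min' hex ⟨τ, hτ, rfl⟩
  let S : Set ℝ := {x | x ≤ sett w z (Y τ0) ∧ ∃ τ ∈ TG K, sdt z (Y τ) = Nat.find hex ∧
    sett w z (Y τ) = x}
  have hfin : S.Finite := by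
    refine (hd.fin (sett w z (Y τ0))).subset ?_
    rintro x ⟨hx, τ, _, _, rfl⟩
    exact ⟨hx, sett_val w z (Y τ)⟩
  have hne : S.Nonempty := ⟨_, le_rfl, τ0, hτ0, hs0, rfl⟩
  obtain ⟨x, ⟨hx, τ, hτ, hτs, rfl⟩, hxmin⟩ := Set.exists_min_image S id hfin hne
  refine ⟨τ, hτ, fun τ' hτ' => ?_⟩
  rcases lt_or_eq_of_le (hmin τ' hτ') with h | h
  · left
    show sdt z (Y τ) < sdt z (Y τ')
    rw [hτs]; exact h
  · right
    refine ⟨by show sdt z (Y τ) = sdt z (Y τ'); rw [hτs]; exact h, ?_⟩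
    show sett w z (Y τ) ≤ sett w z (Y τ')
    rcases le_total (sett w z (Y τ')) (sett w z (Y τ0)) with h1 | h1
    · exact hxmin _ ⟨h1, τ', hτ', h.symm, rfl⟩
    · exact hx.trans h1

end

end Pool.Agent.Lib.MP_e1f7e2_al.FA.H65
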