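import Pool.Agent.Lib.MP_e1f7e2_al.FA.Iface2

/-! # Modules REDI, GENW, PHI (FA, MP_e1f7e2_al); helper65 -/

set_option autoImplicit false

namespace Pool.Agent.Lib.MP_e1f7e2_al.FA.H65

/-! ## REDI -/

theorem redi (K : Type*) [Field K] (w : Fin 3 → ℝ) (_hw : Gen w) (F : Facts K w) :
    RediStatement K w := by
  intro V hV hsg
  cases hV with
  | base V hV hd => exact absurd hd (not_le.2 hsg)
  | step V V' ha hd hr =>
    obtain ⟨f, g, h, q, hfr, hq, rfl, rfl⟩ := ha
    obtain ⟨f', g', h'', hlin, hh, hfr', hor2, hor3, hsp⟩ := F.v.ex f g h hfr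
    have hfrq : Fr f g (h + q) := (F.f.adjm f g h (h + q) hfr (by
      have : h + q - h = q := by abel
      rw [this]; exact hq)).1
    have hfr'q : Fr f' g' (h + q) := F.f.frlin f g f' g' (h + q) hfrq hlin.symm
    obtain ⟨f2, g2, h2, hlin2, hh2, hfr2, hor22, hor32, hsp2⟩ := F.v.ex f' g' (h + q) hfr'q
    have hB : B f g = B f' g' := F.s.blin f g f' g' hlin.symm
    have hspq : sp f' g' (h + q) = sp f g (h + q) := F.s.slin f' g' f g (h + q) hlin
    have hsp2' : sp f' g' h2 = sp f g (h + q) := by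
      rw [← hspq, ← hsp2]
      exact F.s.slin f' g' f2 g2 h2 hlin2.symm
    have e1 : vd w (sp f g h) = dg w f' + dg w g' + dg w h'' := by
      rw [← hsp]; exact F.v.eq _ _ _ hfr' hor3
    have e2 : vd w (sp f g (h + q)) = dg w f2 + dg w g2 + dg w h2 := by
      rw [← hspq, ← hsp2]; exact F.v.eq _ _ _ hfr2 hor32
    have e3 : dg w f' + dg w g' = dg w f2 + dg w g2 := by
      have := F.o.or2deg f' g' f2 g2 (F.f.nc _ _ _ hfr') hor2 hor22 hlin2.symm
      rcases this with h | h
      · rw [h.1, h.2]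
      · rw [h.1, h.2, add_comm]
    refine ⟨f', g', h'', h2, hfr', hsp.symm, hor3, ?_, ?_, ?_, ?_⟩
    · have a1 : h2 - (h + q) ∈ B f' g' := F.s.linB _ _ _ hh2
      have a2 : h'' - h ∈ B f' g' := by
        rw [← hB]; exact F.s.linB _ _ _ hh
      have a3 : q ∈ B f' g' := by rw [← hB]; exact hq
      have a4 : h2 - h'' = (h2 - (h + q)) - (h'' - h) + q := by abel
      rw [a4]
      exact add_mem (sub_mem a1 a2) a3
    · linarith
    · rw [hsp2']; exact hr
    · rw [hsp2']; exact hd

/-! ## GENW -/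

theorem genw : GenwStatement := by
  -- a transcendental number larger than one
  obtain ⟨t, ht1, ht⟩ : ∃ t : ℝ, 1 < t ∧ Transcendental ℤ t := by
    by_contra hcon
    push Not at hcon
    have h1 : Set.Ioo (1 : ℝ) 2 ⊆ {x | IsAlgebraic ℤ x} := by
      intro x hx
      by_contra h
      exact hcon x hx.1 h
    have h2 := (Algebraic.countable ℤ ℝ).mono h1
    rw [Cardinal.Real.Ioo_countable_iff] at h2
    norm_num at h2
  let w : Fin 3 → ℝ := ![t ^ 2, t, 1]
  have hwt : ∀ u : Wd 3, wt w u = (u.toList.count 0 : ℝ) * t ^ 2 + (u.toList.count 1 : ℝ) * t +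
      (u.toList.count 2 : ℝ) := by
    intro u
    have key : ∀ l : List (Fin 3), (l.map w).sum = (l.count 0 : ℝ) * t ^ 2 + (l.count 1 : ℝ) * t +
        (l.count 2 : ℝ) := by
      intro l
      induction l with
      | nil => simp
      | cons a l ih =>
        rw [List.map_cons, List.sum_cons, ih]
        fin_cases a
        · simp [w]; ring
        · simp [w]; ring
        · simp [w]; ring
    exact key u.toList
  refine ⟨w, ⟨?_, ?_⟩, ?_, ?_⟩
  · intro i
    fin_cases i
    · show 0 < t ^ 2; positivity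
    · show 0 < t; linarith
    · show (0 : ℝ) < 1; norm_num
  · intro u v huv
    rw [hwt, hwt] at huv
    let p : Polynomial ℤ := Polynomial.C ((u.toList.count 0 : ℤ) - v.toList.count 0) * Polynomial.X ^ 2 +
      Polynomial.C ((u.toList.count 1 : ℤ) - v.toList.count 1) * Polynomial.X +
      Polynomial.C ((u.toList.count 2 : ℤ) - v.toList.count 2)
    have hp : Polynomial.aeval t p = 0 := by
      simp only [p, map_add, map_mul, Polynomial.aeval_X, map_pow, map_sub, map_natCast]
      linarith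
    have hp0 : p = 0 := by
      by_contra hne
      exact ht ⟨p, hne, hp⟩
    have k0 : ∀ a b c : ℤ, (Polynomial.C a * Polynomial.X ^ 2 + Polynomial.C b * Polynomial.X +
        Polynomial.C c).coeff 2 = a := by
      intro a b c
      simp only [Polynomial.coeff_add, Polynomial.coeff_C_mul, Polynomial.coeff_X_pow,
        Polynomial.coeff_X, Polynomial.coeff_C]
      norm_num
    have k1 : ∀ a b c : ℤ, (Polynomial.C a * Polynomial.X ^ 2 + Polynomial.C b * Polynomial.X +
        Polynomial.C c).coeff 1 = b := by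
      intro a b c
      simp only [Polynomial.coeff_add, Polynomial.coeff_C_mul, Polynomial.coeff_X_pow,
        Polynomial.coeff_X, Polynomial.coeff_C]
      norm_num
    have k2 : ∀ a b c : ℤ, (Polynomial.C a * Polynomial.X ^ 2 + Polynomial.C b * Polynomial.X +
        Polynomial.C c).coeff 0 = c := by
      intro a b c
      simp
    have c0 : p.coeff 2 = (u.toList.count 0 : ℤ) - v.toList.count 0 := k0 _ _ _
    have c1 : p.coeff 1 = (u.toList.count 1 : ℤ) - v.toList.count 1 := k1 _ _ _
    have c2 : p.coeff 0 = (u.toList.count 2 : ℤ) - v.toList.count 2 := k2 _ _ _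
    rw [hp0, Polynomial.coeff_zero] at c0 c1 c2
    rw [List.perm_iff_count]
    intro a
    fin_cases a
    · show u.toList.count 0 = v.toList.count 0; omega
    · show u.toList.count 1 = v.toList.count 1; omega
    · show u.toList.count 2 = v.toList.count 2; omega
  · show (1 : ℝ) < t; exact ht1
  · show t < t ^ 2; nlinarith

/-! ## substitutions -/

section

variable {K : Type*} [Field K] {n : ℕ}

theorem evl_xx {B : Type*} [Ring B] [Algebra K B] (F : Fin n → B) (i : Fin n) :
    evl F (xx i : A K n) = F i := by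
  unfold evl xx
  rw [MonoidAlgebra.lift_single, FreeMonoid.lift_eval_of, one_smul]

theorem hom_ext' {B : Type*} [Ring B] [Algebra K B] {φ ψ : A K n →ₐ[K] B}
    (h : ∀ i, φ (xx i) = ψ (xx i)) : φ = ψ := by
  refine MonoidAlgebra.algHom_ext' ?_ (by ext)
  apply FreeMonoid.hom_eq
  intro i
  exact h i

theorem em_xx (i : Fin 3) : em (xx i : A K 3) = xx (Fin.castSucc i) := by
  unfold em; rw [evl_xx]

theorem sb_em (s p : A K 3) : sb s (em p) = p := by
  have h : (sb s).comp em = AlgHom.id K (A K 3) := by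
    apply hom_ext'
    intro i
    rw [AlgHom.comp_apply, em_xx]
    unfold sb
    rw [evl_xx]
    fin_cases i <;> rfl
  exact DFunLike.congr_fun h p

theorem sb_x3 (s : A K 3) : sb s (xx 3) = s := by
  unfold sb
  rw [evl_xx]
  rfl

theorem Th_xx (z : Fin 3 → A K 3) (i : Fin 3) :
    Th z (xx i) = ![em (z 0) + xx 3, em (z 1), em (z 2)] i := by
  unfold Th; rw [evl_xx]

theorem sb_Th (z : Fin 3 → A K 3) (s : A K 3) :
    (sb s).comp (Th z) = evl ![z 0 + s, z 1, z 2] := by
  apply hom_ext'
  intro i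
  rw [AlgHom.comp_apply, Th_xx, evl_xx]
  fin_cases i
  · show sb s (em (z 0) + xx 3) = z 0 + s
    rw [map_add, sb_em, sb_x3]
  · exact sb_em s (z 1)
  · exact sb_em s (z 2)

end

/-! ## PHI -/

theorem phi (K : Type*) [Field K] : PhiStatement K := by
  intro ψ φ f N h0 h1 h2 _ H
  have h : ((ψ.symm : A K 3 →ₐ[K] A K 3).comp (φ : A K 3 →ₐ[K] A K 3)) =
      TN (fun i => ψ.symm (xx i)) (ψ.symm f) N := by
    unfold TN
    rw [sb_Th]
    apply hom_ext'
    intro i
    rw [evl_xx]
    fin_cases i
    · show ψ.symm (φ (xx 0)) = ψ.symm (xx 0) + (ψ.symm f) ^ N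
      rw [h0, map_add, map_pow]
    · show ψ.symm (φ (xx 1)) = ψ.symm (xx 1)
      rw [h1]
    · show ψ.symm (φ (xx 2)) = ψ.symm (xx 2)
      rw [h2]
  exact DFunLike.congr_fun h H

end Pool.Agent.Lib.MP_e1f7e2_al.FA.H65
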