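import Pool.Agent.Lib.MP_e1f7e2_al.FA.Iface2

/-! # Module TAME (FA, MP_e1f7e2_al): tame frames are reducible; helper65 -/

set_option autoImplicit false

namespace Pool.Agent.Lib.MP_e1f7e2_al.FA.H65

section

variable {K : Type*} [Field K]

/-- the vertex of the generators -/
noncomputable def S0 (K : Type*) [Field K] : Submodule K (A K 3) := sp (xx 0) (xx 1) (xx 2)

theorem map_S0 (τ : A K 3 ≃ₐ[K] A K 3) :
    (S0 K).map (τ.toLinearMap) = sp (τ (xx 0)) (τ (xx 1)) (τ (xx 2)) := by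
  unfold S0 sp
  rw [Submodule.map_span]
  congr 1
  simp [Set.image_insert_eq]

theorem map_mul_S0 (x y : A K 3 ≃ₐ[K] A K 3) :
    (S0 K).map ((x * y).toLinearMap) = ((S0 K).map y.toLinearMap).map x.toLinearMap := by
  rw [← Submodule.map_comp]
  rfl

theorem map_affine {y : A K 3 ≃ₐ[K] A K 3} (hy : IsAffine (xx : Fin 3 → A K 3) y) :
    (S0 K).map y.toLinearMap = S0 K := by
  have hS : S0 K = Submodule.span K (insert 1 (Set.range (xx : Fin 3 → A K 3))) := by
    unfold S0 sp
    congr 1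
    ext z
    simp only [Set.mem_insert_iff, Set.mem_singleton_iff, Set.mem_range]
    constructor
    · rintro (h | h | h | h)
      · exact Or.inl h
      · exact Or.inr ⟨0, h.symm⟩
      · exact Or.inr ⟨1, h.symm⟩
      · exact Or.inr ⟨2, h.symm⟩
    · rintro (h | ⟨i, h⟩)
      · exact Or.inl h
      · fin_cases i
        · exact Or.inr (Or.inl h.symm)
        · exact Or.inr (Or.inr (Or.inl h.symm))
        · exact Or.inr (Or.inr (Or.inr h.symm))
  have hfd : FiniteDimensional K (S0 K) := by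
    unfold S0 sp
    exact FiniteDimensional.span_of_finite K (Set.toFinite _)
  have hle : (S0 K).map y.toLinearMap ≤ S0 K := by
    rw [map_S0]
    unfold sp
    rw [Submodule.span_le]
    have hi : ∀ i, y (xx i) ∈ S0 K := fun i => by rw [hS]; exact hy i
    rintro z (h | h | h | h)
    · rw [h]
      unfold S0 sp
      exact Submodule.subset_span (Or.inl rfl)
    · rw [h]; exact hi 0
    · rw [h]; exact hi 1
    · rw [Set.mem_singleton_iff.1 h]; exact hi 2
  refine Submodule.eq_of_le_of_finrank_eq hle ?_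
  exact (Submodule.equivMapOfInjective y.toLinearMap y.injective (S0 K)).finrank_eq.symm

theorem adj_elem {w : Fin 3 → ℝ} (F : Facts K w) (x : A K 3 ≃ₐ[K] A K 3) {y : A K 3 ≃ₐ[K] A K 3}
    (hy : IsElementary (xx : Fin 3 → A K 3) y) :
    Adj ((S0 K).map x.toLinearMap) ((S0 K).map (x * y).toLinearMap) := by
  obtain ⟨i, α, f, hα, hf, hyi, hyj⟩ := hy
  obtain ⟨j, k, hsp, hfr, hji, hki, hl⟩ : ∃ j k : Fin 3,
      (∀ v : Fin 3 → A K 3, sp (v 0) (v 1) (v 2) = sp (v j) (v k) (v i)) ∧
      (∀ v : Fin 3 → A K 3, Fr (v 0) (v 1) (v 2) → Fr (v j) (v k) (v i)) ∧ j ≠ i ∧ k ≠ i ∧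
      ∀ l, l ≠ i → l = j ∨ l = k := by
    fin_cases i
    · refine ⟨1, 2, fun v => ?_, fun v h => ?_, by decide, by decide, by decide⟩
      · show sp (v 0) (v 1) (v 2) = sp (v 1) (v 2) (v 0)
        rw [F.s.scomm (v 0) (v 1) (v 2), F.s.scomm' (v 1) (v 0) (v 2)]
      · exact F.f.p23 _ _ _ (F.f.p12 _ _ _ h)
    · refine ⟨0, 2, fun v => ?_, fun v h => ?_, by decide, by decide, by decide⟩
      · show sp (v 0) (v 1) (v 2) = sp (v 0) (v 2) (v 1)
        rw [F.s.scomm' (v 0) (v 1) (v 2)]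
      · exact F.f.p23 _ _ _ h
    · refine ⟨0, 1, fun v => rfl, fun v h => h, by decide, by decide, by decide⟩
  rw [map_S0, map_S0, hsp (fun l => x (xx l)), hsp (fun l => (x * y) (xx l))]
  have hfx : x f ∈ B (x (xx j)) (x (xx k)) := by
    have h1 : Algebra.adjoin K ((xx : Fin 3 → A K 3) '' {l | l ≠ i}) ≤
        (B (x (xx j)) (x (xx k))).comap (x : A K 3 →ₐ[K] A K 3) := by
      rw [Algebra.adjoin_le_iff]
      rintro _ ⟨l, hli, rfl⟩
      show x (xx l) ∈ B (x (xx j)) (x (xx k))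
      rcases hl l hli with rfl | rfl
      · exact F.s.bf _ _
      · exact F.s.bg _ _
    exact h1 hf
  refine ⟨x (xx j), x (xx k), x (xx i), α⁻¹ • x f, hfr (fun l => x (xx l)) ⟨x, rfl, rfl, rfl⟩,
    Subalgebra.smul_mem _ hfx _, rfl, ?_⟩
  show sp (x (y (xx j))) (x (y (xx k))) (x (y (xx i))) = _
  rw [hyj j hji, hyj k hki, hyi, map_add, map_smul]
  have h2 : α • x (xx i) + x f = α • (x (xx i) + α⁻¹ • x f) + 0 := by
    rw [smul_add, smul_inv_smul₀ hα, add_zero]
  rw [h2]
  exact F.s.sel _ _ _ 0 α hα (zero_mem _)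

end

theorem tame (K : Type*) [Field K] (w : Fin 3 → ℝ) (_hw : Gen w) (F : Facts K w)
    (hm : MainStatement K w) : TameStatement K w := by
  intro τ hτ
  rw [← map_S0]
  unfold TG TAut at hτ
  induction hτ using Subgroup.closure_induction_right with
  | one =>
    rw [map_S0]
    refine Red.base _ ⟨_, _, _, F.f.base, rfl⟩ ?_
    have h := F.v.le _ _ _ F.f.base
    rw [F.d.xx', F.d.xx', F.d.xx'] at h
    exact h
  | mul_right x hx y hy ih =>
    rcases hy with hy | hy
    · rw [map_mul_S0, map_affine hy]; exact ih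
    · exact hm.1 _ _ ih (adj_elem F x hy)
  | mul_inv_cancel x hx y hy ih =>
    rcases hy with hy | hy
    · have h1 : (S0 K).map (y⁻¹).toLinearMap = S0 K := by
        have h2 := map_mul_S0 (y⁻¹) y
        rw [map_affine hy, inv_mul_cancel] at h2
        rw [← h2]
        exact Submodule.map_id _
      rw [map_mul_S0, h1]; exact ih
    · have h1 := adj_elem F (x * y⁻¹) hy
      rw [inv_mul_cancel_right] at h1
      exact hm.1 _ _ ih (F.f.symm _ _ h1)

end Pool.Agent.Lib.MP_e1f7e2_al.FA.H65
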